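import Mathlib

set_option autoImplicit false

/-!
# MP_f17a8d_co: permutations avoiding the mesh pattern `(132, R)`

A permutation `π` contains the pattern iff there is a value `c` with `c + 1`, `c` in adjacent
places (in this order), `c + 1` a left-to-right maximum, and `c - 1` to the left of `c + 1`.
Let `A n k` be the number of pairs of a permutation and `k` such values `c`.  Removing the smallest
value gives recursions whose solution is `A (m + 2k) k = m! C(m + k - 1, k)`; by inclusion and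
exclusion the number of avoiders is `∑ (-1)^k A n k`, which is the coefficient of `x^n` of
`∑ m! (x / (1 + x²))^m`.
-/

open Finset

namespace Pool.Agent.Results.MP_f17a8d_co.MeshPattern

/-! ### Mesh patterns -/

/-- The positions `i_0 = 0 < i_1 < ⋯ < i_k < i_{k+1} = n + 1` (places numbered from `1`). -/
def posBound {k n : ℕ} (i : Fin k → Fin n) (a : ℕ) : ℕ :=
  if a = 0 then 0 else if h : a - 1 < k then (i ⟨a - 1, h⟩ : ℕ) + 1 else n + 1

/-- The values `j_0 = 0 < j_1 < ⋯ < j_k < j_{k+1} = n + 1` (values numbered from `1`); if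
`π (i ·)` is order-isomorphic to `σ`, the `b`-th smallest value is at the place `i (σ⁻¹ b)`. -/
def valBound {k n : ℕ} (σ : Equiv.Perm (Fin k)) (π : Equiv.Perm (Fin n)) (i : Fin k → Fin n)
    (b : ℕ) : ℕ :=
  if b = 0 then 0 else if h : b - 1 < k then (π (i (σ.symm ⟨b - 1, h⟩)) : ℕ) + 1 else n + 1

/-- `π` contains the mesh pattern `(σ, R)`. -/
def ContainsMesh {k n : ℕ} (σ : Equiv.Perm (Fin k)) (R : Finset (ℕ × ℕ))
    (π : Equiv.Perm (Fin n)) : Prop :=
  ∃ i : Fin k → Fin n, StrictMono i ∧ (∀ a b, σ a < σ b ↔ π (i a) < π (i b)) ∧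
    ∀ r ∈ R, ¬ ∃ x : Fin n, posBound i r.1 < (x : ℕ) + 1 ∧ (x : ℕ) + 1 < posBound i (r.1 + 1) ∧
      valBound σ π i r.2 < (π x : ℕ) + 1 ∧ (π x : ℕ) + 1 < valBound σ π i (r.2 + 1)

/-- The permutation `132`. -/
def p132 : Equiv.Perm (Fin 3) := Equiv.swap 1 2

/-- The set of shaded boxes. -/
def R : Finset (ℕ × ℕ) :=
  {(0, 2), (0, 3), (1, 2), (1, 3), (2, 0), (2, 1), (2, 2), (2, 3), (3, 1), (3, 2)}

/-- The number of permutations of `n` elements that avoid the mesh pattern `(132, R)`. -/
noncomputable def s (n : ℕ) : ℕ := by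
  classical
  exact (univ.filter fun π : Equiv.Perm (Fin n) => ¬ ContainsMesh p132 R π).card

/-! ### Occurrences in terms of the inverse permutation -/

/-- the values of `ρ` as a function on the natural numbers -/
def fn {n : ℕ} (ρ : Equiv.Perm (Fin n)) (v : ℕ) : ℕ := if h : v < n then (ρ ⟨v, h⟩ : ℕ) else 0

theorem fn_eq {n : ℕ} (ρ : Equiv.Perm (Fin n)) {v : ℕ} (h : v < n) : fn ρ v = ρ ⟨v, h⟩ := by
  simp [fn, h]

theorem fn_lt {n : ℕ} (ρ : Equiv.Perm (Fin n)) {v : ℕ} (h : v < n) : fn ρ v < n := by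
  rw [fn_eq ρ h]; exact Fin.is_lt _

theorem fn_inj {n : ℕ} (ρ : Equiv.Perm (Fin n)) {v w : ℕ} (hv : v < n) (hw : w < n)
    (h : fn ρ v = fn ρ w) : v = w := by
  rw [fn_eq ρ hv, fn_eq ρ hw] at h
  have := ρ.injective (Fin.ext h)
  simpa using this

theorem fn_surj {n : ℕ} (ρ : Equiv.Perm (Fin n)) {x : ℕ} (hx : x < n) : ∃ v, v < n ∧ fn ρ v = x :=
  ⟨ρ.symm ⟨x, hx⟩, Fin.is_lt _, by rw [fn_eq ρ (Fin.is_lt _)]; simp⟩

/-- `f` gives the places of the values `0, …, n - 1`; occurrence with middle value `c`. -/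
def Occ (n : ℕ) (f : ℕ → ℕ) (c : ℕ) : Prop :=
  1 ≤ c ∧ c + 1 < n ∧ f c = f (c + 1) + 1 ∧ f (c - 1) < f (c + 1) ∧
    ∀ v, c + 1 < v → v < n → f (c + 1) < f v

theorem contains_iff {n : ℕ} (π : Equiv.Perm (Fin n)) :
    ContainsMesh p132 R π ↔ ∃ c, Occ n (fn π.symm) c := by
  have hs0 : p132.symm (⟨0, by omega⟩ : Fin 3) = 0 := by decide
  have hs1 : p132.symm (⟨1, by omega⟩ : Fin 3) = 2 := by decide
  have hs2 : p132.symm (⟨2, by omega⟩ : Fin 3) = 1 := by decide
  have hpos : ∀ (i : Fin 3 → Fin n), posBound i 0 = 0 ∧ posBound i 1 = i 0 + 1 ∧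
      posBound i 2 = i 1 + 1 ∧ posBound i 3 = i 2 + 1 ∧ posBound i 4 = n + 1 := by
    intro i
    refine ⟨rfl, ?_, ?_, ?_, ?_⟩ <;> simp [posBound]
  have hval : ∀ (i : Fin 3 → Fin n), valBound p132 π i 0 = 0 ∧
      valBound p132 π i 1 = π (i 0) + 1 ∧ valBound p132 π i 2 = π (i 2) + 1 ∧
      valBound p132 π i 3 = π (i 1) + 1 ∧ valBound p132 π i 4 = n + 1 := by
    intro i
    refine ⟨rfl, ?_, ?_, ?_, ?_⟩
    · simp only [valBound, one_ne_zero, if_false, Nat.sub_self]
      rw [dif_pos (by omega), hs0]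
    · simp only [valBound, show (2 : ℕ) ≠ 0 by omega, if_false, show 2 - 1 = 1 by omega]
      rw [dif_pos (by omega), hs1]
    · simp only [valBound, show (3 : ℕ) ≠ 0 by omega, if_false, show 3 - 1 = 2 by omega]
      rw [dif_pos (by omega), hs2]
    · simp [valBound]
  have hfn : ∀ x : Fin n, fn π.symm (π x) = x := by
    intro x
    rw [fn_eq _ (Fin.is_lt _)]
    simp
  have hne : ∀ x y : Fin n, x ≠ y → (π x : ℕ) ≠ π y := by
    intro x y hxy h
    exact hxy (π.injective (Fin.ext h))
  constructor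
  · rintro ⟨i, hi, ho, hr⟩
    obtain ⟨a0, a1, a2, a3, a4⟩ := hpos i
    obtain ⟨b0, b1, b2, b3, b4⟩ := hval i
    have h01 : (i 0 : ℕ) < i 1 := hi (by decide)
    have h12 : (i 1 : ℕ) < i 2 := hi (by decide)
    have o1 : (π (i 0) : ℕ) < π (i 2) := (ho 0 2).mp (by decide)
    have o2 : (π (i 2) : ℕ) < π (i 1) := (ho 2 1).mp (by decide)
    -- the boxes
    have box : ∀ (a b : ℕ), (a, b) ∈ R → ∀ x : Fin n, ¬ (posBound i a < (x : ℕ) + 1 ∧
        (x : ℕ) + 1 < posBound i (a + 1) ∧ valBound p132 π i b < (π x : ℕ) + 1 ∧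
        (π x : ℕ) + 1 < valBound p132 π i (b + 1)) := by
      intro a b hab x h
      exact hr (a, b) hab ⟨x, h⟩
    have r02 := box 0 2 (by decide)
    have r03 := box 0 3 (by decide)
    have r12 := box 1 2 (by decide)
    have r13 := box 1 3 (by decide)
    have r20 := box 2 0 (by decide)
    have r21 := box 2 1 (by decide)
    have r22 := box 2 2 (by decide)
    have r23 := box 2 3 (by decide)
    have r31 := box 3 1 (by decide)
    have r32 := box 3 2 (by decide)
    simp only [Nat.reduceAdd, a0, a1, a2, a3, a4, b0, b1, b2, b3, b4] at r02 r03 r12 r13 r20 r21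
    simp only [Nat.reduceAdd, a0, a1, a2, a3, a4, b0, b1, b2, b3, b4] at r22 r23 r31 r32
    have key : ∀ x : Fin n, (x : ℕ) ≠ i 0 → (x : ℕ) ≠ i 1 → (x : ℕ) ≠ i 2 →
        (π x : ℕ) ≠ π (i 0) ∧ (π x : ℕ) ≠ π (i 1) ∧ (π x : ℕ) ≠ π (i 2) := by
      intro x h0 h1 h2
      exact ⟨hne _ _ fun h => h0 (by rw [h]), hne _ _ fun h => h1 (by rw [h]),
        hne _ _ fun h => h2 (by rw [h])⟩
    -- adjacent places
    have hadj : (i 2 : ℕ) = i 1 + 1 := by
      by_contra hcon
      have hx : (i 1 : ℕ) + 1 < n := by have := (i 2).is_lt; omega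
      obtain ⟨k0, k1, k2⟩ := key ⟨i 1 + 1, hx⟩ (by simp only; omega) (by simp only; omega)
        (by simp only; omega)
      have q0 := r20 ⟨i 1 + 1, hx⟩
      have q1 := r21 ⟨i 1 + 1, hx⟩
      have q2 := r22 ⟨i 1 + 1, hx⟩
      have q3 := r23 ⟨i 1 + 1, hx⟩
      simp only at q0 q1 q2 q3
      have := (π ⟨i 1 + 1, hx⟩).is_lt
      omega
    -- adjacent values
    have hval' : (π (i 1) : ℕ) = π (i 2) + 1 := by
      by_contra hcon
      have hv : (π (i 2) : ℕ) + 1 < n := by have := (π (i 1)).is_lt; omega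
      set x := π.symm ⟨π (i 2) + 1, hv⟩ with hx
      have hπx : (π x : ℕ) = π (i 2) + 1 := by rw [hx]; simp
      have hx0 : (x : ℕ) ≠ i 0 := fun h => by rw [Fin.ext h] at hπx; omega
      have hx1 : (x : ℕ) ≠ i 1 := fun h => by rw [Fin.ext h] at hπx; omega
      have hx2 : (x : ℕ) ≠ i 2 := fun h => by rw [Fin.ext h] at hπx; omega
      have q0 := r02 x
      have q1 := r12 x
      have q2 := r22 x
      have q3 := r32 x
      have := x.is_lt
      omega
    refine ⟨π (i 2), by omega, by have := (π (i 1)).is_lt; omega, ?_, ?_, ?_⟩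
    · rw [← hval', hfn, hfn, hadj]
    · rw [← hval', hfn]
      have hv : (π (i 2) : ℕ) - 1 < n := by have := (π (i 2)).is_lt; omega
      set x := π.symm ⟨π (i 2) - 1, hv⟩ with hx
      have hπx : (π x : ℕ) = π (i 2) - 1 := by rw [hx]; simp
      have e : fn π.symm ((π (i 2) : ℕ) - 1) = x := by rw [fn_eq _ hv, hx]
      rw [e]
      by_contra hcon
      have hx0 : (x : ℕ) ≠ i 0 := by omega
      have hx1 : (x : ℕ) ≠ i 1 := fun h => by rw [Fin.ext h] at hπx; omega
      have hx2 : (x : ℕ) ≠ i 2 := fun h => by rw [Fin.ext h] at hπx; omega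
      obtain ⟨k0, k1, k2⟩ := key x hx0 hx1 hx2
      have q0 := r31 x
      have := x.is_lt
      omega
    · intro v hv hvn
      rw [← hval', hfn]
      rw [← hval'] at hv
      set x := π.symm ⟨v, hvn⟩ with hx
      have hπx : (π x : ℕ) = v := by rw [hx]; simp
      have e : fn π.symm v = x := by rw [fn_eq _ hvn, hx]
      rw [e]
      by_contra hcon
      have hx1 : (x : ℕ) ≠ i 1 := fun h => by rw [Fin.ext h] at hπx; omega
      have hx0 : (x : ℕ) ≠ i 0 := fun h => by rw [Fin.ext h] at hπx; omega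
      have q0 := r03 x
      have q1 := r13 x
      omega
  · rintro ⟨c, h1, h2, h3, h4, h5⟩
    have hc : c < n := by omega
    have hc' : c - 1 < n := by omega
    set i : Fin 3 → Fin n := ![π.symm ⟨c - 1, hc'⟩, π.symm ⟨c + 1, h2⟩, π.symm ⟨c, hc⟩] with hi
    have i0 : i 0 = π.symm ⟨c - 1, hc'⟩ := rfl
    have i1 : i 1 = π.symm ⟨c + 1, h2⟩ := rfl
    have i2 : i 2 = π.symm ⟨c, hc⟩ := rfl
    rw [fn_eq _ hc, fn_eq _ h2, ← i1, ← i2] at h3
    rw [fn_eq _ hc', fn_eq _ h2, ← i0, ← i1] at h4
    rw [fn_eq _ h2, ← i1] at h5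
    have v0 : (π (i 0) : ℕ) = c - 1 := by rw [i0]; simp
    have v1 : (π (i 1) : ℕ) = c + 1 := by rw [i1]; simp
    have v2 : (π (i 2) : ℕ) = c := by rw [i2]; simp
    obtain ⟨a0, a1, a2, a3, a4⟩ := hpos i
    obtain ⟨b0, b1, b2, b3, b4⟩ := hval i
    refine ⟨i, ?_, ?_, ?_⟩
    · intro a b hab
      rw [Fin.lt_def]
      fin_cases a <;> fin_cases b <;> simp at hab ⊢ <;> omega
    · intro a b
      have e0 : p132 0 = 0 := by decide
      have e1 : p132 1 = 2 := by decide
      have e2 : p132 2 = 1 := by decide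
      rw [Fin.lt_def, Fin.lt_def]
      fin_cases a <;> fin_cases b <;> simp [e0, e1, e2, v0, v1, v2] <;> omega
    · rintro ⟨a, b⟩ hab ⟨x, q1, q2, q3, q4⟩
      have q5 : (i 1 : ℕ) < x ∨ (π x : ℕ) ≤ c + 1 := by
        by_cases hx : c + 1 < (π x : ℕ)
        · left
          have := h5 (π x) hx (π x).is_lt
          rwa [hfn] at this
        · right; omega
      simp only [R, mem_insert, mem_singleton, Prod.mk.injEq] at hab
      rcases hab with ⟨rfl, rfl⟩ | ⟨rfl, rfl⟩ | ⟨rfl, rfl⟩ | ⟨rfl, rfl⟩ | ⟨rfl, rfl⟩ | ⟨rfl, rfl⟩ |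
        ⟨rfl, rfl⟩ | ⟨rfl, rfl⟩ | ⟨rfl, rfl⟩ | ⟨rfl, rfl⟩ <;>
      simp only [Nat.reduceAdd, zero_add, a0, a1, a2, a3, a4, b0, b1, b2, b3, b4] at q1 q2 q3 q4 <;>
      omega

/-! ### Insertion of a new smallest value -/

/-- the place of an old value after the insertion of a new value at place `p` -/
def sh (p x : ℕ) : ℕ := if x < p then x else x + 1

theorem sh_lt {p x y : ℕ} : sh p x < sh p y ↔ x < y := by
  unfold sh; split_ifs <;> omega

theorem sh_succ {p x y : ℕ} : sh p x = sh p y + 1 ↔ x = y + 1 ∧ p ≠ x := by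
  unfold sh; split_ifs <;> omega

def insFun {n : ℕ} (p : Fin (n + 1)) (ρ : Equiv.Perm (Fin n)) : Fin (n + 1) → Fin (n + 1) :=
  Fin.cons p (fun v => p.succAbove (ρ v))

theorem insFun_zero {n : ℕ} (p : Fin (n + 1)) (ρ : Equiv.Perm (Fin n)) : insFun p ρ 0 = p := rfl

theorem insFun_succ {n : ℕ} (p : Fin (n + 1)) (ρ : Equiv.Perm (Fin n)) (v : Fin n) :
    insFun p ρ v.succ = p.succAbove (ρ v) := rfl

theorem insFun_injective {n : ℕ} (p : Fin (n + 1)) (ρ : Equiv.Perm (Fin n)) :
    Function.Injective (insFun p ρ) := by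
  intro a b
  refine Fin.cases ?_ (fun a => ?_) a <;> refine Fin.cases ?_ (fun b => ?_) b
  · intro _; rfl
  · rw [insFun_zero, insFun_succ]
    intro h
    exact absurd h.symm (Fin.succAbove_ne p _)
  · rw [insFun_zero, insFun_succ]
    intro h
    exact absurd h (Fin.succAbove_ne p _)
  · rw [insFun_succ, insFun_succ]
    intro h
    have h1 := Fin.succAbove_right_injective h
    rw [ρ.injective h1]

noncomputable def ins {n : ℕ} (p : Fin (n + 1)) (ρ : Equiv.Perm (Fin n)) :
    Equiv.Perm (Fin (n + 1)) :=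
  Equiv.ofBijective (insFun p ρ) (Finite.injective_iff_bijective.mp (insFun_injective p ρ))

theorem ins_zero {n : ℕ} (p : Fin (n + 1)) (ρ : Equiv.Perm (Fin n)) : ins p ρ 0 = p := rfl

theorem ins_succ {n : ℕ} (p : Fin (n + 1)) (ρ : Equiv.Perm (Fin n)) (v : Fin n) :
    ins p ρ v.succ = p.succAbove (ρ v) := rfl

theorem ins_bijective (n : ℕ) :
    Function.Bijective fun q : Fin (n + 1) × Equiv.Perm (Fin n) => ins q.1 q.2 := by
  rw [Fintype.bijective_iff_injective_and_card]
  constructor
  · rintro ⟨p, ρ⟩ ⟨q, τ⟩ h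
    simp only at h
    have h0 : p = q := by
      have := congrArg (fun e => e 0) h
      simpa [ins_zero] using this
    subst h0
    congr 1
    ext v
    have := congrArg (fun e => e v.succ) h
    simp only [ins_succ] at this
    rw [Fin.succAbove_right_injective this]
  · rw [Fintype.card_prod, Fintype.card_fin, Fintype.card_perm, Fintype.card_perm,
      Fintype.card_fin, Fintype.card_fin, Nat.factorial_succ]

theorem sum_ins {n : ℕ} (F : Equiv.Perm (Fin (n + 1)) → ℕ) :
    ∑ ρ, F ρ = ∑ ρ : Equiv.Perm (Fin n), ∑ p : Fin (n + 1), F (ins p ρ) := by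
  rw [← (ins_bijective n).sum_comp F, Fintype.sum_prod_type, Finset.sum_comm]

theorem fn_ins_zero {n : ℕ} (p : Fin (n + 1)) (ρ : Equiv.Perm (Fin n)) :
    fn (ins p ρ) 0 = p := by
  rw [fn_eq _ (by omega)]
  rfl

theorem fn_ins_succ {n : ℕ} (p : Fin (n + 1)) (ρ : Equiv.Perm (Fin n)) {v : ℕ} (hv : v < n) :
    fn (ins p ρ) (v + 1) = sh p (fn ρ v) := by
  rw [fn_eq _ (by omega), fn_eq _ hv]
  have : (⟨v + 1, by omega⟩ : Fin (n + 1)) = (⟨v, hv⟩ : Fin n).succ := rfl
  rw [this, ins_succ, Fin.succAbove]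
  unfold sh
  by_cases h : (ρ ⟨v, hv⟩ : ℕ) < p
  · rw [if_pos (by rw [Fin.lt_def]; exact h), if_pos h]
    rfl
  · rw [if_neg (by rw [Fin.lt_def]; exact h), if_neg h]
    rfl

/-! ### The number of occurrences -/

open Classical in
/-- the set of occurrences -/
noncomputable def occs (n : ℕ) (f : ℕ → ℕ) : Finset ℕ := (range n).filter (Occ n f)

noncomputable def cnt (n : ℕ) (f : ℕ → ℕ) : ℕ := (occs n f).card

/-- the values `1, 0` at the places `0, 1` in terms of the places of the values -/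
def Bon (n : ℕ) (f : ℕ → ℕ) : Prop := 2 ≤ n ∧ f 0 = 1 ∧ f 1 = 0

theorem occ_ins_succ {n p : ℕ} {f f' : ℕ → ℕ} (hs : ∀ v, v < n → f' (v + 1) = sh p (f v))
    {c : ℕ} (hc : 1 ≤ c) : Occ (n + 1) f' (c + 1) ↔ Occ n f c ∧ p ≠ f c := by
  constructor
  · rintro ⟨_, h2, h3, h4, h5⟩
    rw [hs c (by omega), hs (c + 1) (by omega), sh_succ] at h3
    rw [show c + 1 - 1 = (c - 1) + 1 by omega, hs (c - 1) (by omega), hs (c + 1) (by omega),
      sh_lt] at h4
    refine ⟨⟨hc, by omega, h3.1, h4, fun v hv hvn => ?_⟩, h3.2⟩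
    have := h5 (v + 1) (by omega) (by omega)
    rwa [hs v hvn, hs (c + 1) (by omega), sh_lt] at this
  · rintro ⟨⟨_, h2, h3, h4, h5⟩, h6⟩
    refine ⟨by omega, by omega, ?_, ?_, fun v hv hvn => ?_⟩
    · rw [hs c (by omega), hs (c + 1) (by omega), sh_succ]
      exact ⟨h3, h6⟩
    · rw [show c + 1 - 1 = (c - 1) + 1 by omega, hs (c - 1) (by omega), hs (c + 1) (by omega),
        sh_lt]
      exact h4
    · obtain ⟨w, rfl⟩ : ∃ w, v = w + 1 := ⟨v - 1, by omega⟩
      rw [hs w (by omega), hs (c + 1) (by omega), sh_lt]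
      exact h5 w (by omega) (by omega)

theorem occ_ins_one {n p : ℕ} {f f' : ℕ → ℕ} (h0 : f' 0 = p)
    (hs : ∀ v, v < n → f' (v + 1) = sh p (f v)) (hinj : ∀ v w, v < n → w < n → f v = f w → v = w)
    (hsurj : ∀ x, x < n → ∃ v, v < n ∧ f v = x) :
    Occ (n + 1) f' (0 + 1) ↔ p = 0 ∧ Bon n f := by
  constructor
  · rintro ⟨_, h2, h3, h4, h5⟩
    rw [hs 0 (by omega), hs 1 (by omega), sh_succ] at h3
    rw [show 0 + 1 - 1 = 0 by omega, h0, hs 1 (by omega)] at h4
    have h6 : f 1 = 0 := by
      by_contra hcon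
      obtain ⟨v, hv, hv0⟩ := hsurj 0 (by omega)
      have hv1 : v ≠ 0 := by rintro rfl; omega
      have hv2 : v ≠ 1 := by rintro rfl; omega
      have := h5 (v + 1) (by omega) (by omega)
      rw [hs v hv, hs 1 (by omega), sh_lt] at this
      omega
    have h7 : p = 0 := by
      rw [h6] at h4
      unfold sh at h4
      split_ifs at h4 <;> omega
    exact ⟨h7, by omega, by omega, h6⟩
  · rintro ⟨rfl, h2, h3, h4⟩
    refine ⟨by omega, by omega, ?_, ?_, fun v hv hvn => ?_⟩
    · rw [hs 0 (by omega), hs 1 (by omega), sh_succ]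
      omega
    · rw [show 0 + 1 - 1 = 0 by omega, h0, hs 1 (by omega), h4]
      simp [sh]
    · obtain ⟨w, rfl⟩ : ∃ w, v = w + 1 := ⟨v - 1, by omega⟩
      rw [hs w (by omega), hs 1 (by omega), sh_lt, h4]
      by_contra hcon
      have := hinj w 1 (by omega) (by omega) (by omega)
      omega

open Classical in
theorem cnt_ins {n p : ℕ} {f f' : ℕ → ℕ} (h0 : f' 0 = p)
    (hs : ∀ v, v < n → f' (v + 1) = sh p (f v)) (hinj : ∀ v w, v < n → w < n → f v = f w → v = w)
    (hsurj : ∀ x, x < n → ∃ v, v < n ∧ f v = x) :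
    cnt (n + 1) f' = ((occs n f).filter fun c => p ≠ f c).card + if p = 0 ∧ Bon n f then 1 else 0 := by
  unfold cnt occs
  rw [Finset.card_filter, Finset.sum_range_succ']
  have e0 : (if Occ (n + 1) f' 0 then 1 else 0) = 0 := by
    rw [if_neg]; rintro ⟨h, _⟩; omega
  rw [e0, add_zero, Finset.filter_filter, Finset.card_filter]
  rcases Nat.eq_zero_or_pos n with hn | hn
  · subst hn
    rw [if_neg (by rintro ⟨_, h, _⟩; omega)]
    rfl
  · obtain ⟨m, rfl⟩ : ∃ m, n = m + 1 := ⟨n - 1, by omega⟩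
    rw [Finset.sum_range_succ', Finset.sum_range_succ' (fun c => if Occ (m + 1) f c ∧ p ≠ f c then 1 else 0)]
    have e1 : (if Occ (m + 1) f 0 ∧ p ≠ f 0 then 1 else 0) = 0 := by
      rw [if_neg]; rintro ⟨⟨h, _⟩, _⟩; omega
    rw [e1, add_zero]
    congr 1
    · apply Finset.sum_congr rfl
      intro c _
      exact if_congr (occ_ins_succ hs (by omega)) rfl rfl
    · exact if_congr (occ_ins_one h0 hs hinj hsurj) rfl rfl

theorem choose_id (o k : ℕ) : (o : ℤ) * ((o - 1).choose k : ℤ) = (o - k) * (o.choose k : ℤ) := by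
  rcases Nat.eq_zero_or_pos o with h | h
  · subst h
    rcases Nat.eq_zero_or_pos k with hk | hk
    · subst hk; simp
    · rw [Nat.choose_eq_zero_of_lt (by omega : 0 < k)]; simp
  · obtain ⟨m, rfl⟩ : ∃ m, o = m + 1 := ⟨o - 1, by omega⟩
    rw [show m + 1 - 1 = m by omega]
    by_cases hk : k ≤ m + 1
    · have h1 := Nat.choose_mul_succ_eq m k
      have h2 : (((m + 1 - k : ℕ)) : ℤ) = (m + 1 : ℕ) - k := by push_cast [Nat.cast_sub hk]; ring
      have h3 : ((m.choose k * (m + 1) : ℕ) : ℤ) = (((m + 1).choose k * (m + 1 - k) : ℕ) : ℤ) := by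
        rw [h1]
      rw [Nat.cast_mul, Nat.cast_mul, h2] at h3
      linarith
    · rw [Nat.choose_eq_zero_of_lt (by omega : m < k), Nat.choose_eq_zero_of_lt (by omega : m + 1 < k)]
      simp

open Classical in
/-- the sum over all insertions into one permutation -/
theorem sum_one {n : ℕ} (ρ : Equiv.Perm (Fin n)) (k : ℕ) :
    ((∑ p : Fin (n + 1), (cnt (n + 1) (fn (ins p ρ))).choose (k + 1) : ℕ) : ℤ) =
      (n - k) * ((cnt n (fn ρ)).choose (k + 1) : ℤ) +
        if Bon n (fn ρ) then ((cnt n (fn ρ)).choose k : ℤ) else 0 := by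
  set f := fn ρ with hf
  set o := cnt n f with ho
  have hcnt : ∀ p : Fin (n + 1), cnt (n + 1) (fn (ins p ρ)) =
      ((occs n f).filter fun c => (p : ℕ) ≠ f c).card + if (p : ℕ) = 0 ∧ Bon n f then 1 else 0 :=
    fun p => cnt_ins (fn_ins_zero p ρ) (fun v hv => fn_ins_succ p ρ hv)
      (fun v w hv hw => fn_inj ρ hv hw) (fun x hx => fn_surj ρ hx)
  have hmem : ∀ c, c ∈ occs n f → Occ n f c := by
    intro c hc
    exact (mem_filter.mp hc).2
  set S := (occs n f).image f with hS
  have hScard : S.card = o := by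
    rw [hS, Finset.card_image_of_injOn]
    · rfl
    · intro a ha b hb hab
      have h1 := hmem a ha
      have h2 := hmem b hb
      exact fn_inj ρ (by have := h1.2.1; omega) (by have := h2.2.1; omega) hab
  have hSsub : S ⊆ range (n + 1) := by
    intro x hx
    obtain ⟨c, hc, rfl⟩ := mem_image.mp hx
    have h1 := hmem c hc
    have : f c < n := fn_lt ρ (v := c) (by have := h1.2.1; omega)
    rw [mem_range]
    omega
  have h0S : 0 ∉ S := by
    intro hx
    obtain ⟨c, hc, h⟩ := mem_image.mp hx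
    have h1 := (hmem c hc).2.2.1
    omega
  have hin : ∀ p ∈ S, ((occs n f).filter fun c => p ≠ f c).card = o - 1 := by
    intro p hp
    obtain ⟨c, hc, rfl⟩ := mem_image.mp hp
    have : ((occs n f).filter fun c' => f c ≠ f c') = (occs n f).erase c := by
      ext a
      rw [mem_filter, mem_erase]
      constructor
      · rintro ⟨h1, h2⟩
        exact ⟨fun h => h2 (by rw [h]), h1⟩
      · rintro ⟨h1, h2⟩
        refine ⟨h2, fun h => h1 ?_⟩
        have h3 := hmem a h2
        have h4 := hmem c hc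
        exact (fn_inj ρ (by have := h4.2.1; omega) (by have := h3.2.1; omega) h).symm
    rw [this, card_erase_of_mem hc]
    rfl
  have hout : ∀ p, p ∉ S → ((occs n f).filter fun c => p ≠ f c).card = o := by
    intro p hp
    rw [Finset.filter_true_of_mem]
    · rfl
    · intro c hc h
      exact hp (mem_image.mpr ⟨c, hc, h.symm⟩)
  -- split the sum
  have hsum : (∑ p : Fin (n + 1), (cnt (n + 1) (fn (ins p ρ))).choose (k + 1)) =
      (∑ p ∈ range (n + 1), (((occs n f).filter fun c => p ≠ f c).card).choose (k + 1)) +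
        if Bon n f then o.choose k else 0 := by
    rw [← Fin.sum_univ_eq_sum_range
      (fun p => (((occs n f).filter fun c => p ≠ f c).card).choose (k + 1)) (n + 1)]
    have h1 : ∀ p : Fin (n + 1), (cnt (n + 1) (fn (ins p ρ))).choose (k + 1) =
        (((occs n f).filter fun c => (p : ℕ) ≠ f c).card).choose (k + 1) +
          if p = 0 then (if Bon n f then o.choose k else 0) else 0 := by
      intro p
      rw [hcnt p]
      by_cases hp : p = 0
      · subst hp
        rw [if_pos rfl]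
        have h2 : ((occs n f).filter fun c => ((0 : Fin (n + 1)) : ℕ) ≠ f c).card = o := by
          exact hout ((0 : Fin (n + 1)) : ℕ) h0S
        rw [h2]
        by_cases hB : Bon n f
        · rw [if_pos ⟨by simp, hB⟩, if_pos hB, Nat.choose_succ_succ]
          ring
        · rw [if_neg (by rintro ⟨_, h⟩; exact hB h), if_neg hB]
          simp
      · rw [if_neg hp, if_neg, add_zero, add_zero]
        rintro ⟨h, _⟩
        exact hp (Fin.ext (by simpa using h))
    rw [Finset.sum_congr rfl fun p _ => h1 p, Finset.sum_add_distrib]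
    congr 1
    rw [Finset.sum_ite_eq' univ (0 : Fin (n + 1))]
    simp
  rw [hsum, ← Finset.sum_sdiff hSsub]
  have e1 : ∑ p ∈ S, (((occs n f).filter fun c => p ≠ f c).card).choose (k + 1) =
      o * (o - 1).choose (k + 1) := by
    rw [Finset.sum_congr rfl fun p hp => by rw [hin p hp], Finset.sum_const, hScard, smul_eq_mul]
  have hSle : o ≤ n + 1 := by
    have := card_le_card hSsub
    rwa [card_range, hScard] at this
  have e2 : ∑ p ∈ range (n + 1) \ S, (((occs n f).filter fun c => p ≠ f c).card).choose (k + 1) =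
      (n + 1 - o) * o.choose (k + 1) := by
    rw [Finset.sum_congr rfl fun p hp => by rw [hout p (mem_sdiff.mp hp).2], Finset.sum_const,
      card_sdiff_of_subset hSsub, hScard, card_range, smul_eq_mul]
  rw [e1, e2]
  push_cast [Nat.cast_sub hSle]
  have := choose_id o (k + 1)
  push_cast at this
  rw [this]
  ring

/-! ### The recursions -/

noncomputable def A (n k : ℕ) : ℕ := ∑ ρ : Equiv.Perm (Fin n), (cnt n (fn ρ)).choose k

open Classical in
noncomputable def U (n k : ℕ) : ℕ :=
  ∑ ρ : Equiv.Perm (Fin n), if Bon n (fn ρ) then (cnt n (fn ρ)).choose k else 0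

open Classical in
noncomputable def S (n k : ℕ) : ℕ :=
  ∑ ρ : Equiv.Perm (Fin n), if 1 ≤ n ∧ fn ρ 0 = 0 then (cnt n (fn ρ)).choose k else 0

theorem A_succ (n k : ℕ) : (A (n + 1) (k + 1) : ℤ) = (n - k) * A n (k + 1) + U n k := by
  classical
  unfold A U
  rw [sum_ins, Nat.cast_sum, Finset.sum_congr rfl fun ρ _ => sum_one ρ k, Finset.sum_add_distrib,
    ← Finset.mul_sum]
  push_cast
  rfl

theorem A_zero (n : ℕ) : A n 0 = n.factorial := by
  unfold A
  simp [Fintype.card_perm]

theorem U_succ (n k : ℕ) : U (n + 1) k = S n k := by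
  classical
  unfold U S
  rw [sum_ins]
  apply Finset.sum_congr rfl
  intro ρ _
  by_cases hn : 1 ≤ n
  · have h1 : ∀ p : Fin (n + 1), Bon (n + 1) (fn (ins p ρ)) ↔
        p = ⟨1, by omega⟩ ∧ (1 ≤ n ∧ fn ρ 0 = 0) := by
      intro p
      unfold Bon
      have e1 : fn (ins p ρ) 1 = sh p (fn ρ 0) := fn_ins_succ p ρ (by omega : 0 < n)
      rw [fn_ins_zero, e1]
      constructor
      · rintro ⟨_, h2, h3⟩
        refine ⟨Fin.ext h2, hn, ?_⟩
        unfold sh at h3
        split_ifs at h3 <;> omega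
      · rintro ⟨h2, _, h3⟩
        refine ⟨by omega, by rw [h2], ?_⟩
        rw [h2, h3]
        simp [sh]
    have h2 : ∀ p : Fin (n + 1), (if Bon (n + 1) (fn (ins p ρ)) then
        (cnt (n + 1) (fn (ins p ρ))).choose k else 0) =
        if p = ⟨1, by omega⟩ then (if 1 ≤ n ∧ fn ρ 0 = 0 then (cnt n (fn ρ)).choose k else 0)
          else 0 := by
      intro p
      by_cases hp : p = ⟨1, by omega⟩
      · rw [if_pos hp]
        by_cases h0 : 1 ≤ n ∧ fn ρ 0 = 0
        · rw [if_pos ((h1 p).mpr ⟨hp, h0⟩), if_pos h0]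
          congr 1
          rw [cnt_ins (fn_ins_zero p ρ) (fun v hv => fn_ins_succ p ρ hv)
            (fun v w hv hw => fn_inj ρ hv hw) (fun x hx => fn_surj ρ hx)]
          rw [if_neg (by rw [hp]; simp), add_zero, Finset.filter_true_of_mem]
          · rfl
          · intro c hc h
            have hO : Occ n (fn ρ) c := (mem_filter.mp hc).2
            rw [hp] at h
            simp only at h
            have h3 := hO.2.2.1
            have h4 := fn_inj ρ (v := c + 1) (w := 0) hO.2.1 (by omega) (by omega)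
            omega
        · rw [if_neg h0, if_neg]
          intro h
          exact h0 ((h1 p).mp h).2
      · rw [if_neg hp, if_neg]
        intro h
        exact hp ((h1 p).mp h).1
    rw [Finset.sum_congr rfl fun p _ => h2 p, Finset.sum_ite_eq' univ]
    simp
  · have hn0 : n = 0 := by omega
    subst hn0
    rw [if_neg (by omega)]
    apply Finset.sum_eq_zero
    intro p _
    rw [if_neg]
    rintro ⟨h, _⟩
    omega

open Classical in
theorem S_eq (n k : ℕ) : S (n + 1) k =
    ∑ ρ : Equiv.Perm (Fin n), (cnt n (fn ρ) + if Bon n (fn ρ) then 1 else 0).choose k := by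
  unfold S
  rw [sum_ins]
  apply Finset.sum_congr rfl
  intro ρ _
  have h2 : ∀ p : Fin (n + 1), (if 1 ≤ n + 1 ∧ fn (ins p ρ) 0 = 0 then
      (cnt (n + 1) (fn (ins p ρ))).choose k else 0) =
      if p = 0 then (cnt n (fn ρ) + if Bon n (fn ρ) then 1 else 0).choose k else 0 := by
    intro p
    rw [fn_ins_zero]
    by_cases hp : p = 0
    · subst hp
      rw [if_pos ⟨by omega, by simp⟩, if_pos rfl]
      congr 1
      rw [cnt_ins (fn_ins_zero 0 ρ) (fun v hv => fn_ins_succ 0 ρ hv)
        (fun v w hv hw => fn_inj ρ hv hw) (fun x hx => fn_surj ρ hx)]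
      rw [Finset.filter_true_of_mem]
      · congr 1
        exact if_congr (by simp) rfl rfl
      · intro c hc h
        have hO : Occ n (fn ρ) c := (mem_filter.mp hc).2
        have h3 := hO.2.2.1
        simp only [Fin.val_zero] at h
        omega
    · rw [if_neg hp, if_neg]
      rintro ⟨_, h⟩
      exact hp (Fin.ext (by simpa using h))
  rw [Finset.sum_congr rfl fun p _ => h2 p, Finset.sum_ite_eq' univ]
  simp

theorem S_zero (n : ℕ) : S (n + 1) 0 = n.factorial := by
  rw [S_eq]
  simp [Fintype.card_perm]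

theorem S_succ (n k : ℕ) : S (n + 1) (k + 1) = A n (k + 1) + U n k := by
  classical
  rw [S_eq]
  unfold A U
  rw [← Finset.sum_add_distrib]
  apply Finset.sum_congr rfl
  intro ρ _
  by_cases h : Bon n (fn ρ)
  · rw [if_pos h, if_pos h, Nat.choose_succ_succ]
    ring
  · rw [if_neg h, if_neg h]
    simp

/-! ### The solution -/

theorem closed (n : ℕ) : (∀ k, A n k = if 2 * k ≤ n then
      (n - 2 * k).factorial * (n - 2 * k + k - 1).choose k else 0) ∧
    (∀ k, U n k = if 2 * k + 2 ≤ n then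
      (n - 2 * k - 2).factorial * (n - 2 * k - 2 + k).choose k else 0) ∧
    (∀ k, U (n + 1) k = if 2 * k + 2 ≤ n + 1 then
      (n + 1 - 2 * k - 2).factorial * (n + 1 - 2 * k - 2 + k).choose k else 0) := by
  induction n with
  | zero =>
    refine ⟨fun k => ?_, fun k => ?_, fun k => ?_⟩
    · have h : ∀ ρ : Equiv.Perm (Fin 0), cnt 0 (fn ρ) = 0 := by
        intro ρ
        unfold cnt occs
        simp
      unfold A
      rcases Nat.eq_zero_or_pos k with hk | hk
      · subst hk; simp
      · rw [if_neg (by omega)]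
        apply Finset.sum_eq_zero
        intro ρ _
        rw [h ρ, Nat.choose_eq_zero_of_lt hk]
    · rw [if_neg (by omega)]
      unfold U
      apply Finset.sum_eq_zero
      intro ρ _
      rw [if_neg]
      rintro ⟨h, _⟩
      omega
    · rw [if_neg (by omega)]
      unfold U
      apply Finset.sum_eq_zero
      intro ρ _
      rw [if_neg]
      rintro ⟨h, _⟩
      omega
  | succ n ih =>
    obtain ⟨hA, hU, hU'⟩ := ih
    refine ⟨fun k => ?_, hU', fun k => ?_⟩
    · rcases Nat.eq_zero_or_pos k with hk | hk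
      · subst hk
        rw [A_zero, if_pos (by omega)]
        simp
      · obtain ⟨j, rfl⟩ : ∃ j, k = j + 1 := ⟨k - 1, by omega⟩
        have h1 := A_succ n j
        rw [hA (j + 1), hU j] at h1
        by_cases hc : 2 * (j + 1) ≤ n
        · obtain ⟨m, rfl⟩ : ∃ m, n = m + (2 * j + 2) := ⟨n - (2 * j + 2), by omega⟩
          rw [if_pos (by omega), if_pos (by omega),
            show m + (2 * j + 2) - 2 * (j + 1) = m by omega,
            show m + (j + 1) - 1 = m + j by omega,
            show m + (2 * j + 2) - 2 * j - 2 = m by omega] at h1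
          rw [if_pos (by omega), show m + (2 * j + 2) + 1 - 2 * (j + 1) = m + 1 by omega,
            show m + 1 + (j + 1) - 1 = m + j + 1 by omega]
          have h2 := Nat.choose_mul_succ_eq (m + j) (j + 1)
          rw [show m + j + 1 - (j + 1) = m by omega] at h2
          have h3 : (m + j + 1).choose (j + 1) = (m + j).choose j + (m + j).choose (j + 1) :=
            Nat.choose_succ_succ _ _
          zify at h2 h3 ⊢
          rw [h1, Nat.factorial_succ]
          push_cast
          linear_combination (m.factorial : ℤ) * h2 - (m.factorial : ℤ) * h3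
        · rw [if_neg hc, if_neg (by omega)] at h1
          have h2 : A (n + 1) (j + 1) = 0 := by
            zify; rw [h1]; simp
          rw [h2]
          split_ifs with h3
          · rw [show n + 1 - 2 * (j + 1) = 0 by omega,
              Nat.choose_eq_zero_of_lt (by omega : 0 + (j + 1) - 1 < j + 1), mul_zero]
          · rfl
    · rw [U_succ]
      rcases Nat.eq_zero_or_pos k with hk | hk
      · subst hk
        rw [S_zero, if_pos (by omega), show n + 1 + 1 - 2 * 0 - 2 = n by omega]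
        simp
      · obtain ⟨j, rfl⟩ : ∃ j, k = j + 1 := ⟨k - 1, by omega⟩
        rw [S_succ, hA (j + 1), hU j]
        by_cases hc : 2 * (j + 1) ≤ n
        · obtain ⟨m, rfl⟩ : ∃ m, n = m + (2 * j + 2) := ⟨n - (2 * j + 2), by omega⟩
          rw [if_pos (by omega), if_pos (by omega), if_pos (by omega),
            show m + (2 * j + 2) - 2 * (j + 1) = m by omega,
            show m + (j + 1) - 1 = m + j by omega,
            show m + (2 * j + 2) - 2 * j - 2 = m by omega,
            show m + (2 * j + 2) + 1 + 1 - 2 * (j + 1) - 2 = m by omega,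
            show m + (j + 1) = m + j + 1 by omega, Nat.choose_succ_succ]
          simp only [Nat.succ_eq_add_one]
          ring
        · rw [if_neg hc, if_neg (by omega), if_neg (by omega)]

/-! ### The avoiders -/

theorem cnt_eq_zero (n : ℕ) (f : ℕ → ℕ) : cnt n f = 0 ↔ ¬ ∃ c, Occ n f c := by
  classical
  unfold cnt occs
  rw [card_eq_zero, Finset.filter_eq_empty_iff]
  constructor
  · rintro h ⟨c, hc⟩
    exact h (mem_range.mpr (by have := hc.2.1; omega)) hc
  · intro h c _ hc
    exact h ⟨c, hc⟩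

theorem cnt_le (n : ℕ) (f : ℕ → ℕ) : cnt n f ≤ n := by
  classical
  unfold cnt occs
  exact (card_filter_le _ _).trans (by rw [card_range])

theorem s_eq_card (n : ℕ) : s n =
    ((univ : Finset (Equiv.Perm (Fin n))).filter fun ρ => cnt n (fn ρ) = 0).card := by
  classical
  unfold s
  refine Finset.card_bij (fun π _ => π.symm) ?_ ?_ ?_
  · intro π hπ
    rw [mem_filter] at hπ ⊢
    exact ⟨mem_univ _, (cnt_eq_zero _ _).mpr fun h => hπ.2 ((contains_iff π).mpr h)⟩
  · intro π _ π' _ h
    have := congrArg Equiv.symm h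
    simpa using this
  · intro ρ hρ
    rw [mem_filter] at hρ
    refine ⟨ρ.symm, ?_, by simp⟩
    rw [mem_filter]
    refine ⟨mem_univ _, fun h => ?_⟩
    rw [contains_iff] at h
    exact (cnt_eq_zero _ _).mp hρ.2 (by simpa using h)

theorem s_eq_alt (n : ℕ) : (s n : ℤ) = ∑ k ∈ range (n + 1), (-1) ^ k * (A n k : ℤ) := by
  classical
  rw [s_eq_card, Finset.card_filter]
  unfold A
  push_cast
  simp_rw [Finset.mul_sum]
  rw [Finset.sum_comm]
  apply Finset.sum_congr rfl
  intro ρ _
  have h1 := Int.alternating_sum_range_choose (n := cnt n (fn ρ))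
  rw [← h1]
  apply Finset.sum_subset
  · intro x hx
    rw [mem_range] at hx ⊢
    have := cnt_le n (fn ρ)
    omega
  · intro x _ hx
    rw [mem_range] at hx
    rw [Nat.choose_eq_zero_of_lt (by omega)]
    simp

theorem s_formula (n : ℕ) : (s n : ℤ) =
    ∑ k ∈ range (n / 2 + 1), (-1) ^ k * (((n - k - 1).choose k * (n - 2 * k).factorial : ℕ) : ℤ) := by
  rw [s_eq_alt]
  symm
  have hsub : range (n / 2 + 1) ⊆ range (n + 1) := by
    intro x hx
    rw [mem_range] at hx ⊢
    omega
  rw [← Finset.sum_subset hsub (f := fun k => (-1) ^ k * (A n k : ℤ))]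
  · apply Finset.sum_congr rfl
    intro k hk
    rw [mem_range] at hk
    rw [(closed n).1 k, if_pos (by omega), show n - 2 * k + k - 1 = n - k - 1 by omega, mul_comm
      ((n - k - 1).choose k)]
  · intro x _ hx
    rw [mem_range] at hx
    rw [(closed n).1 x, if_neg (by omega)]
    simp

/-! ### The power series -/

open PowerSeries in
/-- the coefficients of `(x / (1 + x²))^m` -/
def co (m n : ℕ) : ℚ :=
  if m ≤ n ∧ 2 ∣ n - m then (-1) ^ ((n - m) / 2) * ((m + (n - m) / 2 - 1).choose ((n - m) / 2) : ℚ)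
    else 0

theorem co_even (m k : ℕ) : co m (m + 2 * k) = (-1) ^ k * ((m + k - 1).choose k : ℚ) := by
  unfold co
  rw [if_pos ⟨by omega, ⟨k, by omega⟩⟩, show (m + 2 * k - m) / 2 = k by omega]

theorem co_odd (m k : ℕ) : co m (m + 2 * k + 1) = 0 := by
  unfold co
  rw [if_neg]
  rintro ⟨_, h⟩
  omega

theorem co_lt {m n : ℕ} (h : n < m) : co m n = 0 := by
  unfold co
  rw [if_neg]
  rintro ⟨_, _⟩
  omega

theorem co_rec (m n : ℕ) : co (m + 1) n + (if 2 ≤ n then co (m + 1) (n - 2) else 0) =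
    if 1 ≤ n then co m (n - 1) else 0 := by
  rcases Nat.lt_or_ge n (m + 1) with h | h
  · rw [co_lt h]
    rcases Nat.eq_zero_or_pos n with hn | hn
    · subst hn; simp
    · rw [if_pos (by omega : 1 ≤ n), co_lt (by omega : n - 1 < m)]
      split_ifs
      · rw [co_lt (by omega : n - 2 < m + 1)]; simp
      · simp
  · obtain ⟨d, rfl⟩ : ∃ d, n = m + 1 + d := ⟨n - (m + 1), by omega⟩
    rw [if_pos (by omega : 1 ≤ m + 1 + d), show m + 1 + d - 1 = m + d by omega]
    rcases Nat.even_or_odd' d with ⟨k, rfl | rfl⟩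
    · rw [co_even, co_even, show m + 1 + k - 1 = m + k by omega]
      rcases Nat.eq_zero_or_pos k with hk | hk
      · subst hk
        split_ifs
        · rw [co_lt (by omega)]; simp
        · simp
      · obtain ⟨j, rfl⟩ : ∃ j, k = j + 1 := ⟨k - 1, by omega⟩
        rw [if_pos (by omega), show m + 1 + 2 * (j + 1) - 2 = m + 1 + 2 * j by omega, co_even,
          show m + 1 + j - 1 = m + j by omega, show m + (j + 1) - 1 = m + j by omega,
          show m + (j + 1) = m + j + 1 by omega, Nat.choose_succ_succ (m + j) j, pow_succ]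
        push_cast
        ring
    · rw [show m + 1 + (2 * k + 1) = m + 1 + 2 * k + 1 by ring, co_odd,
        show m + (2 * k + 1) = m + 2 * k + 1 by ring, co_odd]
      split_ifs
      · rcases Nat.eq_zero_or_pos k with hk | hk
        · subst hk
          rw [co_lt (by omega)]; simp
        · obtain ⟨j, rfl⟩ : ∃ j, k = j + 1 := ⟨k - 1, by omega⟩
          rw [show m + 1 + 2 * (j + 1) + 1 - 2 = m + 1 + 2 * j + 1 by omega, co_odd]; simp
      · simp

open PowerSeries in
theorem coeff_pow (m n : ℕ) :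
    PowerSeries.coeff n (((X : PowerSeries ℚ) * (1 + X ^ 2)⁻¹) ^ m) = co m n := by
  have hunit : (1 + (X : PowerSeries ℚ) ^ 2)⁻¹ * (1 + X ^ 2) = 1 := by
    apply PowerSeries.inv_mul_cancel
    simp
  have key : ∀ m, ((X : PowerSeries ℚ) * (1 + X ^ 2)⁻¹) ^ m = PowerSeries.mk (co m) := by
    intro m
    induction m with
    | zero =>
      ext n
      rw [pow_zero, PowerSeries.coeff_one, PowerSeries.coeff_mk]
      rcases Nat.even_or_odd' n with ⟨k, rfl | rfl⟩
      · have := co_even 0 k
        rw [zero_add, zero_add] at this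
        rw [this]
        rcases Nat.eq_zero_or_pos k with hk | hk
        · subst hk; simp
        · rw [if_neg (by omega), Nat.choose_eq_zero_of_lt (by omega)]; simp
      · have := co_odd 0 k
        rw [zero_add] at this
        rw [this, if_neg (by omega)]
    | succ m ih =>
      have h1 : (PowerSeries.mk (co (m + 1)) : PowerSeries ℚ) * (1 + X ^ 2) =
          PowerSeries.mk (co m) * X := by
        ext n
        rw [mul_add, mul_one, map_add, PowerSeries.coeff_mk, PowerSeries.coeff_mul_X_pow',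
          PowerSeries.coeff_mk]
        rw [co_rec]
        have := PowerSeries.coeff_mul_X_pow' (PowerSeries.mk (co m)) 1 n
        rw [pow_one] at this
        rw [this, PowerSeries.coeff_mk]
      have h2 : (PowerSeries.mk (co (m + 1)) : PowerSeries ℚ) =
          PowerSeries.mk (co m) * X * (1 + X ^ 2)⁻¹ := by
        rw [← h1, mul_assoc, mul_comm (1 + (X : PowerSeries ℚ) ^ 2), hunit, mul_one]
      rw [h2, pow_succ, ih, mul_assoc]
  rw [key, PowerSeries.coeff_mk]

/-- **The identity of formal power series**, coefficient by coefficient (the terms with `m > n` do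
not contribute to the coefficient of `x^n`), and the explicit number of avoiders. -/
theorem result :
    (∀ n N : ℕ, n ≤ N → PowerSeries.coeff n (∑ m ∈ range (N + 1),
      (m.factorial : ℚ) • ((PowerSeries.X : PowerSeries ℚ) * (1 + PowerSeries.X ^ 2)⁻¹) ^ m) =
        (s n : ℚ)) ∧
    ∀ n : ℕ, (s n : ℤ) = ∑ k ∈ range (n / 2 + 1),
      (-1) ^ k * (((n - k - 1).choose k * (n - 2 * k).factorial : ℕ) : ℤ) := by
  refine ⟨fun n N hN => ?_, s_formula⟩
  rw [map_sum]
  have h1 : ∀ m ∈ range (N + 1), PowerSeries.coeff n ((m.factorial : ℚ) •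
      ((PowerSeries.X : PowerSeries ℚ) * (1 + PowerSeries.X ^ 2)⁻¹) ^ m) =
      if m ≤ n ∧ 2 ∣ n - m then (m.factorial : ℚ) * ((-1) ^ ((n - m) / 2) *
        ((m + (n - m) / 2 - 1).choose ((n - m) / 2) : ℚ)) else 0 := by
    intro m _
    rw [PowerSeries.coeff_smul, coeff_pow]
    unfold co
    split_ifs
    · rfl
    · simp
  rw [Finset.sum_congr rfl h1, ← Finset.sum_filter]
  have h2 : (s n : ℚ) = ((s n : ℤ) : ℚ) := by simp
  rw [h2, s_formula]
  push_cast
  refine Finset.sum_nbij' (fun m => (n - m) / 2) (fun k => n - 2 * k) ?_ ?_ ?_ ?_ ?_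
  · intro m hm
    rw [mem_filter, mem_range] at hm
    rw [mem_range]
    omega
  · intro k hk
    rw [mem_range] at hk
    rw [mem_filter, mem_range]
    exact ⟨by omega, by omega, ⟨k, by omega⟩⟩
  · intro m hm
    rw [mem_filter, mem_range] at hm
    obtain ⟨_, h3, h4⟩ := hm
    omega
  · intro k hk
    rw [mem_range] at hk
    omega
  · intro m hm
    rw [mem_filter, mem_range] at hm
    obtain ⟨_, h3, ⟨k, hk⟩⟩ := hm
    have e1 : (n - m) / 2 = k := by omega
    rw [e1, show n - k - 1 = m + k - 1 by omega, show n - 2 * k = m by omega]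
    ring

end Pool.Agent.Results.MP_f17a8d_co.MeshPattern
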